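import Pool.Agent.Q82.CW.Def

/-!
# Project CW: no linearised stability for `w_ττ + 5 w_τ = (w w_x)_x + 2w² - 6w` at `g` (MP_96e154_an)

Where `w < 0` the equation is elliptic. If `w(0) = -δ` on an interval and `w_τ(0)` has a jump there,
there is no weak solution: the energy method with difference quotients shows `w_τ ∈ L²_τ H¹_x ∩ H¹_τ L²_x` up
to `τ = 0`, which excludes a jump. Such data exist in every hypersurface through `(g,0)` transversal to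
`(g,g)`, arbitrarily close to `(g,0)`, as `g = 0` outside of `[-π, π]`.

Every part is a `Prop`; a job proves `S_xx`, possibly from some other `S_yy` named in the job.
-/

set_option autoImplicit false

open MeasureTheory Filter Topology Set
open scoped ContDiff

namespace Pool.Agent.Q82.CW

/-- A weak solution in terms of functions: `w τ` continuous and in `L²`, `b τ ∈ L²` its derivative,
`c τ ∈ L²` its `τ`-derivative, all continuous in `τ ≥ 0` with values in `L²`, and the equations tested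
with smooth functions of `x`. -/
structure Sol0 (w b c : ℝ → ℝ → ℝ) : Prop where
  mw : ∀ τ, 0 ≤ τ → MemLp (w τ) 2
  mb : ∀ τ, 0 ≤ τ → MemLp (b τ) 2
  mc : ∀ τ, 0 ≤ τ → MemLp (c τ) 2
  cw : ∀ τ, 0 ≤ τ → Continuous (w τ)
  ftc : ∀ τ, 0 ≤ τ → ∀ x y : ℝ, w τ y - w τ x = ∫ s in x..y, b τ s
  tw : ∀ τ0, 0 ≤ τ0 → Tendsto (fun τ => ∫ x, (w τ x - w τ0 x) ^ 2) (𝓝[Ici 0] τ0) (𝓝 0)
  tb : ∀ τ0, 0 ≤ τ0 → Tendsto (fun τ => ∫ x, (b τ x - b τ0 x) ^ 2) (𝓝[Ici 0] τ0) (𝓝 0)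
  tc : ∀ τ0, 0 ≤ τ0 → Tendsto (fun τ => ∫ x, (c τ x - c τ0 x) ^ 2) (𝓝[Ici 0] τ0) (𝓝 0)
  eq1 : ∀ φ : ℝ → ℝ, ContDiff ℝ ∞ φ → HasCompactSupport φ → ∀ s t : ℝ, 0 ≤ s → s ≤ t →
    (∫ x, w t x * φ x) - ∫ x, w s x * φ x = ∫ τ in s..t, ∫ x, c τ x * φ x
  eq2 : ∀ φ : ℝ → ℝ, ContDiff ℝ ∞ φ → HasCompactSupport φ → ∀ s t : ℝ, 0 ≤ s → s ≤ t →
    (∫ x, c t x * φ x) - ∫ x, c s x * φ x = ∫ τ in s..t, (-5 * (∫ x, c τ x * φ x) -
      (∫ x, w τ x * b τ x * deriv φ x) + ∫ x, (2 * w τ x ^ 2 - 6 * w τ x) * φ x)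

/-- A compactly supported `H¹` function `v` with derivative `v'`. -/
structure H1c (v v' : ℝ → ℝ) : Prop where
  cont : Continuous v
  supp : HasCompactSupport v
  mem : MemLp v' 2
  suppd : ∃ R : ℝ, ∀ x, R < |x| → v' x = 0
  ftc : ∀ x y : ℝ, v y - v x = ∫ s in x..y, v' s

/-- Difference. -/
def Df (h : ℝ) (f : ℝ → ℝ) (x : ℝ) : ℝ := f (x + h) - f x

/-- A smooth cut-off: `1` on `[4.5, 5.5]`, support in `[4.2, 5.8]`, values in `[0,1]`. -/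
noncomputable def bmp : ContDiffBump (5 : ℝ) := ⟨1 / 2, 4 / 5, by norm_num, by norm_num⟩

noncomputable def ch (x : ℝ) : ℝ := bmp x

/-- The pairing `∫ (D c) χ² (D w)`. -/
noncomputable def FF (w c : ℝ → ℝ → ℝ) (h τ : ℝ) : ℝ :=
  ∫ x, Df h (c τ) x * (ch x ^ 2 * Df h (w τ) x)

/-- Its derivative. -/
noncomputable def GG (w b c : ℝ → ℝ → ℝ) (h τ : ℝ) : ℝ :=
  (∫ x, Df h (c τ) x ^ 2 * ch x ^ 2) - 5 * (∫ x, Df h (c τ) x * (ch x ^ 2 * Df h (w τ) x)) -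
    (∫ x, Df h (fun y => w τ y * b τ y) x *
      (2 * ch x * deriv ch x * Df h (w τ) x + ch x ^ 2 * Df h (b τ) x)) +
    ∫ x, Df h (fun y => 2 * w τ y ^ 2 - 6 * w τ y) x * (ch x ^ 2 * Df h (w τ) x)

/-- The initial data on `[4,6]`: `w = -δ`, and `w_τ` jumps from `0` to `κ` at `5`. -/
def Ini (w c : ℝ → ℝ → ℝ) (δ κ : ℝ) : Prop :=
  0 < δ ∧ 0 < κ ∧ (∀ x ∈ Icc (4 : ℝ) 6, w 0 x = -δ) ∧
  ∀ᵐ x : ℝ, x ∈ Icc (4 : ℝ) 6 → c 0 x = if 5 ≤ x then κ else 0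

/-! ### From weak solutions to `Sol0` -/

/-- An `L²` function with weak derivative in `L²` has a continuous representative. Proof:
`B x = ∫_0^x b`; `a - B` has weak derivative `0`, hence is a.e. constant (test with
`φ - (∫ φ) ρ`, which is a derivative of a test function, `∫ ρ = 1`). -/
def S_REP : Prop := ∀ a b : L2, WeakDeriv a b → ∃ w : ℝ → ℝ, Continuous w ∧ (a =ᵐ[volume] w) ∧
  ∀ x y : ℝ, w y - w x = ∫ s in x..y, b s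

/-- From a weak solution. From `S_REP`. Choose `w τ` by `S_REP` for `τ ≥ 0`, `b τ`, `c τ` the
representatives of the components of `γ τ`. `tw`, `tb`, `tc`: the integral of the square is the square of the
`L²` norm of the difference of the components (`L2.norm_sq_eq_inner`, or `Lp.norm_def`,
`eLpNorm`...). `eq1`, `eq2`: for `θ ∈ C_c^∞(0,∞)` the test function `φ(x) θ(τ)` gives
`∫ θ' f = -∫ θ F`, with `f τ = ∫ w τ φ` and `F τ = ∫ c τ φ`, both continuous on `[0,∞)` (and with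
`f τ = ∫ c τ φ`, `F τ = -5 ∫ c φ - ∫ w b φ' + ∫ (2w²-6w) φ`; continuity of `∫ w b φ'`, `∫ w² φ` in `τ` from
`Cauchy-Schwarz`), so `f - ∫_1^τ F` has weak derivative zero, is constant on `(0,∞)`, and by continuity
on `[0,∞)`. -/
def S_RED : Prop := ∀ (d : X) (γ : ℝ → X), WeakSol d γ → ∃ w b c : ℝ → ℝ → ℝ, Sol0 w b c ∧
  (w 0 =ᵐ[volume] ((d : L2 × L2 × L2).1 : ℝ → ℝ)) ∧
  (c 0 =ᵐ[volume] ((d : L2 × L2 × L2).2.2 : ℝ → ℝ))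

/-! ### The energy estimate -/

/-- Sup bounds. `|f x|² ≤ ∫ f² + ∫ f'²`-type inequality: for `f` continuous, in `L²`, with derivative
`f' ∈ L²` one has `|f x|² ≤ 2 (∫ f² + ∫ f'²)` (on the interval `[x,x+1]` there is `y` with
`f y ² ≤ ∫ f²`, and `|f x - f y|² ≤ ∫ f'²`). Apply to `w τ` and to `w τ - w 0`. On `(4,6)` `b 0 = 0` a.e.
because `w 0` is constant there. -/
def S_SUP : Prop := ∀ w b c : ℝ → ℝ → ℝ, Sol0 w b c →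
  (∀ t : ℝ, 0 ≤ t → ∃ M : ℝ, ∀ τ ∈ Icc 0 t, (∀ x, |w τ x| ≤ M) ∧ (∫ x, w τ x ^ 2) ≤ M ∧
    (∫ x, b τ x ^ 2) ≤ M ∧ (∫ x, c τ x ^ 2) ≤ M) ∧
  ∀ δ κ : ℝ, Ini w c δ κ → ∀ η : ℝ, 0 < η → ∃ t : ℝ, 0 < t ∧ ∀ τ ∈ Icc 0 t,
    (∀ x, |w τ x - w 0 x| ≤ η) ∧ ∫ x in (4 : ℝ)..6, b τ x ^ 2 ≤ η ^ 2

/-- Test functions in `H¹` with compact support. Proof: mollify `v` (`ContDiffBump.convolution` or
`exists smooth approximation`): `v_n → v`, `v_n' → v'` in `L²`, supports in a fixed ball; all terms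
converge, uniformly in `τ ∈ [s,t]`, by Cauchy-Schwarz and the bounds of `S_SUP` (first part). -/
def S_H1T : Prop := ∀ w b c : ℝ → ℝ → ℝ, Sol0 w b c → ∀ v v' : ℝ → ℝ, H1c v v' →
  ∀ s t : ℝ, 0 ≤ s → s ≤ t →
  ((∫ x, w t x * v x) - ∫ x, w s x * v x = ∫ τ in s..t, ∫ x, c τ x * v x) ∧
  (∫ x, c t x * v x) - ∫ x, c s x * v x = ∫ τ in s..t, (-5 * (∫ x, c τ x * v x) -
      (∫ x, w τ x * b τ x * v' x) + ∫ x, (2 * w τ x ^ 2 - 6 * w τ x) * v x)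

/-- The derivative of the pairing. From `S_SUP`, `S_H1T`. For `0 < h ≤ 1/10`. `FF`, `GG` are continuous
on `[0,∞)` (all quantities are continuous in `τ` with values in `L²`, `w` also uniformly in `x`). For fixed
`τ` the function `v = χ² Df h (w τ')` is `H1c` with derivative `2χχ' Df h (w τ') + χ² Df h (b τ')`, and so is
its translate, so that `∫ Df h (c t) v - ∫ Df h (c s) v` is given by `S_H1T` (translation by `h`):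
`∫_s^t (-5 ∫ Dc v - ∫ D(w b) v' + ∫ D(2w²-6w) v)`. Hence
`FF t - FF s = [∫ Dc(t) χ² Dw(t) - ∫ Dc(s) χ² Dw(t)] + ∫ Dc(s) χ² (Dw(t) - Dw(s))`, and dividing by
`t - s → 0+` the right derivative of `FF` at `s` is `GG s`; here
`‖w(t) - w(s) - (t-s) c(s)‖₂ ≤ (t-s) sup ‖c(τ) - c(s)‖₂` by `eq1` and the density of test functions
(`intervalIntegral` with right derivatives: `integral_eq_of_hasDeriv_right` or the like). -/
def S_F : Prop := ∀ w b c : ℝ → ℝ → ℝ, Sol0 w b c → ∀ h : ℝ, 0 < h → h ≤ 1 / 10 →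
  ContinuousOn (FF w c h) (Ici 0) ∧ ContinuousOn (GG w b c h) (Ici 0) ∧
  ∀ t : ℝ, 0 ≤ t → FF w c h t - FF w c h 0 = ∫ τ in (0 : ℝ)..t, GG w b c h τ

/-- The energy estimate. From `S_SUP`, `S_F`. Let `D = Df h`. Choose `t` by `S_SUP` with a small
`η ≤ δ/2` (depending on `δ`), so that `w ≤ -δ/2` on `[4,6] × [0,t]` and `∫_4^6 b² ≤ η²`; `FF 0 = 0` since
`D w(0) = 0` on the support of `χ`. Let `θ τ = 1 - τ/t`. Integration by parts in `τ`: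
`∫_0^t θ² GG = 2 ∫_0^t θ/t FF`. In `GG`: `D(w b) = w(x+h) D b + (D w) b`, so
`-∫ D(w b) χ² D b = ∫ |w(x+h)| χ² (D b)² - ∫ (D w) b χ² D b`. All other terms are at most
`(1/4) ∫ χ² (D c)² + (δ/8) ∫ χ² (D b)² + C ∫_{4.2}^{5.8} (D w)² + (C/δ) ∫ (D w)² b² χ²`, where
`∫_{4.2}^{5.8} (D w)² ≤ h² ∫_4^6 b² ≤ h² η²`, and
`∫ (D w)² b² χ² ≤ sup |χ D w|² ∫_4^6 b² ≤ η² · 2 ∫ ((χ D w)')² ≤ η² (4 ∫ χ² (D b)² + C h²)` (`χ D w` vanishes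
outside of an interval of length at most `2`). For `η` small these are absorbed. With
`θ ≥ 1/2` on `[0, t/2]` the result holds with `t' = t/2`. -/
def S_EN : Prop := ∀ w b c : ℝ → ℝ → ℝ, Sol0 w b c → ∀ δ κ : ℝ, Ini w c δ κ →
  ∃ t K : ℝ, 0 < t ∧ 0 < K ∧ ∀ h : ℝ, 0 < h → h ≤ 1 / 10 →
    ∫ τ in (0 : ℝ)..t, ((∫ x in (4.5 : ℝ)..5.5, Df h (c τ) x ^ 2) +
      ∫ x in (4.5 : ℝ)..5.5, Df h (b τ) x ^ 2) ≤ K * h ^ 2

/-- Absolute continuity. From `S_EN`. Let `e j τ = 4^j ∫_{A_j} (Df h (c τ)² + Df h (b τ)²)`, `h = 2^(-j)`,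
`A_j = [4.6, 5.4 - 2·2^(-j)]`, for `j ≥ 5`. As `Df (2h) f x = Df h f x + Df h f (x+h)`,
`(Df (2h) f x)² ≤ 2 (Df h f x)² + 2 (Df h f (x+h))²` and `A_j ∪ (A_j + 2^(-j-1)) ⊆ A_(j+1)`:
`e j ≤ e (j+1)`. Each `e j` is continuous on `[0,∞)`, and `∫_0^t e j ≤ K` by `S_EN`. By monotone convergence
`e = sup e j` is integrable on `(0,t)` and `∫_0^(2^(-j)) e j ≤ ∫_0^(2^(-j)) e → 0`. -/
def S_AC : Prop := ∀ w b c : ℝ → ℝ → ℝ, Sol0 w b c → ∀ δ κ : ℝ, Ini w c δ κ →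
  Tendsto (fun j : ℕ => ∫ τ in (0 : ℝ)..(1 / 2) ^ j, 4 ^ j *
    ((∫ x in (4.6 : ℝ)..(5.4 - 2 * (1 / 2) ^ j), Df ((1 / 2) ^ j) (c τ) x ^ 2) +
      ∫ x in (4.6 : ℝ)..(5.4 - 2 * (1 / 2) ^ j), Df ((1 / 2) ^ j) (b τ) x ^ 2)) atTop (𝓝 0)

/-- The contradiction. From `S_SUP`, `S_H1T`, `S_AC`. Let `h = 2^(-j)`, `k y = max 0 (min y (1 - y))`,
`k_h x = k ((x-5)/h)`, `v x = h⁻¹ (k_h x - k_h (x+h))`, `H1c` with `v' x = h⁻¹ (k_h' x - k_h' (x+h))`,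
`|k_h'| ≤ 1/h`. Then `∫ c(0) v = κ/4`. With `e` the integrand of `S_AC` (`A_j ⊇ [5-h, 5]`):
`|∫ c(τ) v| = h⁻¹ |∫_{5-h}^5 (Df h (c τ) x) k_h (x+h) dx| ≤ √h √(e τ)`;
`|∫ w b v'| = h⁻¹ |∫_{5-h}^5 Df h (w b) x k_h' (x+h) dx| ≤ h⁻¹ h^(-1/2) (∫_{5-h}^5 (Df h (w b))²)^(1/2)`, with
`Df h (w b) x = w (x+h) Df h b x + (Df h w x) b x` and
`sup_{A_j} |Df h w|² ≤ C (∫_{A_j} (Df h w)² + ∫_{A_j} (Df h b)²) ≤ C h² (M + e τ)`, so
`∫_{5-h}^5 (Df h (w b))² ≤ C h² (1 + e τ)`; `|∫ (2w²-6w) v| ≤ C` (as `∫ |v| ≤ 1/2`). By `S_H1T`,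
`κ/4 ≤ |∫ c(τ) v| + ∫_0^h |...|` for `τ ∈ [0,h]`; average over `τ ∈ [0,h]` and use
`∫_0^h √(1+e) ≤ √h √(∫_0^h (1+e))`. As `j → ∞`, `κ/4 ≤ 0`. -/
def S_CON : Prop := ∀ w b c : ℝ → ℝ → ℝ, Sol0 w b c → ∀ δ κ : ℝ, ¬ Ini w c δ κ

/-! ### The data -/

/-- The points `(g,0)` and `(g,g)` of `X`. `g' = -2 sin x` for `|x| ≤ π`, `0` outside (integrate by parts
on `[-π,π]`, `g (±π) = 0`). -/
def S_G : Prop := ∃ p v : X, Repr p g (fun _ => 0) ∧ Repr v g g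

/-- Small data with the required behaviour on `[4,6]`: `-δ φ(|x|)` with a smooth bump `φ` equal to `1` on
`[4,6]` with support in `[3.5,6.5]`, and `κ` times the indicator of `5 ≤ |x| ≤ 6`, with small `δ`, `κ`. -/
def S_BUMP : Prop := ∀ ρ : ℝ, 0 < ρ → ∃ (d : X) (δ κ : ℝ), ‖d‖ < ρ ∧ 0 < δ ∧ 0 < κ ∧
  (∀ᵐ x : ℝ, x ∈ Icc (4 : ℝ) 6 → (d : L2 × L2 × L2).1 x = -δ) ∧
  ∀ᵐ x : ℝ, x ∈ Icc (4 : ℝ) 6 → (d : L2 × L2 × L2).2.2 x = if 5 ≤ x then κ else 0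

/-- Intermediate value argument: `s ↦ Φ (p + s v)` has derivative `≠ 0` at `0`, so it changes sign between
`-s₀` and `s₀` for arbitrarily small `s₀ > 0`; by continuity the same holds for `Φ (p + d + s v)` for small
`d` (with `p + d + s v ∈ V` for `|s| ≤ s₀`). -/
def S_IVT : Prop := ∀ (U M : Set X) (p v : X), Hyper U M p v → ∀ ρ : ℝ, 0 < ρ → ∃ ρ' : ℝ, 0 < ρ' ∧
  ∀ d : X, ‖d‖ < ρ' → ∃ s : ℝ, p + d + s • v ∈ M ∧ ‖d + s • v‖ < ρ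

/-- Everything together: on `[4,6]` the data `p + d + s v` coincide with `d`, since `g = 0` there. From
`S_RED`, `S_CON`, `S_G`, `S_BUMP`, `S_IVT` (the a.e. equality of the continuous `w 0` with `-δ` on `[4,6]`
holds everywhere). -/
def S_MAIN4 : Prop := ∃ p v : X, Repr p g (fun _ => 0) ∧ Repr v g g ∧ ∀ U M : Set X, U ∈ 𝓝 p →
  Hyper U M p v → ∀ ρ : ℝ, 0 < ρ → ∃ d : X, d ∈ M ∧ ‖d - p‖ < ρ ∧ ∀ γ : ℝ → X, ¬ WeakSol d γ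

end Pool.Agent.Q82.CW
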