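import Pool.Agent.Q82.CW.Stm
import Pool.Agent.Q220.CW_MAIN4
import Pool.Agent.Q109.CW_RED
import Pool.Agent.Q234.CW_REP
import Pool.Agent.Q285.CW_CON
import Pool.Agent.Q103.CW_SUP
import Pool.Agent.Q208.CW_H1T
import Pool.Agent.Q160.CW_AC
import Pool.Agent.Q123.CW_EN
import Pool.Agent.Q130.CW_F
import Pool.Agent.Q153.CW_G
import Pool.Agent.Q79.CW_BUMP
import Pool.Agent.Q160.CW_IVT

/-!
Everything together (project CW, MP_96e154_an).
-/

namespace Pool.Agent.Q82.CW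

theorem main_all : S_MAIN4 :=
  main4 (red1 rep1) (con1 sup1 (h1t sup1) (ac1 (en1 sup1 (ff1 sup1 (h1t sup1))))) g1 bump1 ivt1

end Pool.Agent.Q82.CW
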