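import Pool.Agent.Q82.CW.Space
import Pool.Agent.Q82.CW.Fin

/-!
From `Pool.Agent.Q82.CW.X` to `Pool.Agent.Q82.CWS.E`.
-/

set_option autoImplicit false

open MeasureTheory Filter Topology Set

namespace Pool.Agent.Q82.CWS

theorem weakSol_iff (d : E) (γ : ℝ → E) : WeakSol d γ ↔ Pool.Agent.Q82.CW.WeakSol d γ := Iff.rfl

theorem hyper_iff (U M : Set E) (p v : E) : Hyper U M p v ↔ Pool.Agent.Q82.CW.Hyper U M p v :=
  Iff.rfl

theorem illPosed : ∃ p v : E, Repr p g (fun _ => 0) ∧ Repr v g g ∧ IllPosed p v := by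
  obtain ⟨p, v, hp, hv, h⟩ := Pool.Agent.Q82.CW.main_all
  refine ⟨p, v, hp, hv, ?_⟩
  intro U M hU hM ρ hρ
  obtain ⟨d, hd, hdp, hno⟩ := h U M hU ((hyper_iff U M p v).1 hM) ρ hρ
  exact ⟨d, hd, hdp, fun γ hγ => hno γ ((weakSol_iff d γ).1 hγ)⟩

end Pool.Agent.Q82.CWS
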