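import Mathlib

/-!
The space of even pairs in `H¹(ℝ) × L²(ℝ)` and weak solutions of
`w_ττ + 5 w_τ = (w w_x)_x + 2 w² - 6 w`.
-/

set_option autoImplicit false

open MeasureTheory Filter Topology Set
open scoped ContDiff

namespace Pool.Agent.Q82.CW

/-- The space `L²(ℝ)`. -/
abbrev L2 : Type := Lp ℝ 2 (volume : Measure ℝ)

/-- `b` is the weak derivative of `a`. -/
def WeakDeriv (a b : L2) : Prop :=
  ∀ φ : ℝ → ℝ, ContDiff ℝ ∞ φ → HasCompactSupport φ →
    ∫ x, a x * deriv φ x = -∫ x, b x * φ x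

/-- `a` is even. -/
def EvenL2 (a : L2) : Prop := ∀ᵐ x : ℝ, a (-x) = a x

theorem int_mul {φ : ℝ → ℝ} (a : L2) (h : Continuous φ) (hc : HasCompactSupport φ) :
    Integrable (fun x => a x * φ x) :=
  (Lp.memLp a).integrable_mul (q := 2) (h.memLp_of_hasCompactSupport hc)

theorem WeakDeriv.add {a b a' b' : L2} (h : WeakDeriv a b) (h' : WeakDeriv a' b') :
    WeakDeriv (a + a') (b + b') := by
  intro φ hφ hc
  have hd : Continuous (deriv φ) := hφ.continuous_deriv (by simp)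
  have hdc : HasCompactSupport (deriv φ) := hc.deriv
  have e1 : ∫ x, (a + a' : L2) x * deriv φ x = ∫ x, (a x * deriv φ x + a' x * deriv φ x) := by
    apply integral_congr_ae
    filter_upwards [Lp.coeFn_add a a'] with x hx
    rw [hx, Pi.add_apply, add_mul]
  have e2 : ∫ x, (b + b' : L2) x * φ x = ∫ x, (b x * φ x + b' x * φ x) := by
    apply integral_congr_ae
    filter_upwards [Lp.coeFn_add b b'] with x hx
    rw [hx, Pi.add_apply, add_mul]
  rw [e1, e2, integral_add (int_mul a hd hdc) (int_mul a' hd hdc),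
    integral_add (int_mul b hφ.continuous hc) (int_mul b' hφ.continuous hc), h φ hφ hc,
    h' φ hφ hc]
  ring

theorem WeakDeriv.smul {a b : L2} (c : ℝ) (h : WeakDeriv a b) : WeakDeriv (c • a) (c • b) := by
  intro φ hφ hc
  have e1 : ∫ x, (c • a : L2) x * deriv φ x = ∫ x, c * (a x * deriv φ x) := by
    apply integral_congr_ae
    filter_upwards [Lp.coeFn_smul c a] with x hx
    rw [hx, Pi.smul_apply, smul_eq_mul, mul_assoc]
  have e2 : ∫ x, (c • b : L2) x * φ x = ∫ x, c * (b x * φ x) := by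
    apply integral_congr_ae
    filter_upwards [Lp.coeFn_smul c b] with x hx
    rw [hx, Pi.smul_apply, smul_eq_mul, mul_assoc]
  rw [e1, e2, integral_const_mul, integral_const_mul, h φ hφ hc]
  ring

theorem neg_ae {P : ℝ → Prop} (h : ∀ᵐ x : ℝ, P x) : ∀ᵐ x : ℝ, P (-x) :=
  (Measure.measurePreserving_neg (volume : Measure ℝ)).quasiMeasurePreserving.ae h

theorem EvenL2.add {a a' : L2} (h : EvenL2 a) (h' : EvenL2 a') : EvenL2 (a + a') := by
  filter_upwards [h, h', Lp.coeFn_add a a', neg_ae (Lp.coeFn_add a a')] with x h1 h2 h3 h4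
  rw [h3, h4, Pi.add_apply, Pi.add_apply, h1, h2]

theorem EvenL2.smul {a : L2} (c : ℝ) (h : EvenL2 a) : EvenL2 (c • a) := by
  filter_upwards [h, Lp.coeFn_smul c a, neg_ae (Lp.coeFn_smul c a)] with x h1 h3 h4
  rw [h3, h4, Pi.smul_apply, Pi.smul_apply, h1]

theorem WeakDeriv.zero : WeakDeriv 0 0 := by
  intro φ hφ hc
  have e1 : ∫ x, (0 : L2) x * deriv φ x = ∫ x : ℝ, (0 : ℝ) := by
    apply integral_congr_ae
    filter_upwards [Lp.coeFn_zero ℝ 2 (volume : Measure ℝ)] with x hx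
    rw [hx, Pi.zero_apply, zero_mul]
  have e2 : ∫ x, (0 : L2) x * φ x = ∫ x : ℝ, (0 : ℝ) := by
    apply integral_congr_ae
    filter_upwards [Lp.coeFn_zero ℝ 2 (volume : Measure ℝ)] with x hx
    rw [hx, Pi.zero_apply, zero_mul]
  rw [e1, e2]
  simp

theorem EvenL2.zero : EvenL2 0 := by
  filter_upwards [Lp.coeFn_zero ℝ 2 (volume : Measure ℝ),
    neg_ae (Lp.coeFn_zero ℝ 2 (volume : Measure ℝ))] with x h3 h4
  rw [h3, h4, Pi.zero_apply, Pi.zero_apply]

/-- The space `X` of pairs `(w₀, w₁) ∈ H¹(ℝ) × L²(ℝ)` with `w₀`, `w₁` even. A pair is stored as the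
triple `(w₀, w₀', w₁)` with its norm in `L² × L² × L²`, which is equivalent to the norm of
`H¹ × L²`. -/
def X : Submodule ℝ (L2 × L2 × L2) where
  carrier := {p | EvenL2 p.1 ∧ WeakDeriv p.1 p.2.1 ∧ EvenL2 p.2.2}
  zero_mem' := ⟨EvenL2.zero, WeakDeriv.zero, EvenL2.zero⟩
  add_mem' := fun h h' => ⟨h.1.add h'.1, h.2.1.add h'.2.1, h.2.2.add h'.2.2⟩
  smul_mem' := fun c _ h => ⟨h.1.smul c, h.2.1.smul c, h.2.2.smul c⟩

/-- The element `p` of `X` is the pair `(f, k)`. -/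
def Repr (p : X) (f k : ℝ → ℝ) : Prop :=
  ((p : L2 × L2 × L2).1 =ᵐ[volume] f) ∧ ((p : L2 × L2 × L2).2.2 =ᵐ[volume] k)

/-- The stationary profile `g`. -/
noncomputable def g (x : ℝ) : ℝ := if |x| ≤ Real.pi then 4 * Real.cos (x / 2) ^ 2 else 0

/-- `γ τ = (w(τ), w_τ(τ))` is a weak solution with the data `d`: it is continuous on `[0, ∞)` with
values in `X`, `γ 0 = d`, and in the sense of distributions on `ℝ × (0, ∞)` the second component is
the `τ`-derivative of the first one and the equation holds. The test functions depend on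
`(x, τ)`. -/
def WeakSol (d : X) (γ : ℝ → X) : Prop :=
  ContinuousOn γ (Ici 0) ∧ γ 0 = d ∧
  ∀ ψ : ℝ × ℝ → ℝ, ContDiff ℝ ∞ ψ → HasCompactSupport ψ → tsupport ψ ⊆ {q | 0 < q.2} →
    (∫ τ, ∫ x, (γ τ : L2 × L2 × L2).1 x * deriv (fun t => ψ (x, t)) τ =
      -∫ τ, ∫ x, (γ τ : L2 × L2 × L2).2.2 x * ψ (x, τ)) ∧
    (-(∫ τ, ∫ x, (γ τ : L2 × L2 × L2).2.2 x * deriv (fun t => ψ (x, t)) τ) +
        5 * ∫ τ, ∫ x, (γ τ : L2 × L2 × L2).2.2 x * ψ (x, τ) =
      -(∫ τ, ∫ x, (γ τ : L2 × L2 × L2).1 x * (γ τ : L2 × L2 × L2).2.1 x *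
          deriv (fun y => ψ (y, τ)) x) +
        ∫ τ, ∫ x, (2 * (γ τ : L2 × L2 × L2).1 x ^ 2 - 6 * (γ τ : L2 × L2 × L2).1 x) * ψ (x, τ))

/-- Near the point `p` the set `M` is a hypersurface of class `C¹`, contained in `U` and transversal
to `v` at `p`. -/
def Hyper (U M : Set X) (p v : X) : Prop :=
  M ⊆ U ∧ p ∈ M ∧ ∃ (V : Set X) (Φ : X → ℝ), IsOpen V ∧ p ∈ V ∧ ContDiffOn ℝ 1 Φ V ∧
    (∀ x ∈ V, x ∈ M ↔ Φ x = 0) ∧ fderiv ℝ Φ p v ≠ 0

end Pool.Agent.Q82.CW
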