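import Pool.Agent.Q82.CW.Def

/-!
The space `E` of even pairs in `H¹(ℝ) × L²(ℝ)`, weak solutions of
`w_ττ + 5 w_τ = (w w_x)_x + 2 w² - 6 w`, and hypersurfaces.
-/

set_option autoImplicit false

open MeasureTheory Filter Topology Set
open scoped ContDiff

namespace Pool.Agent.Q82.CWS

/-- The space `L²(ℝ)`. -/
def L2 : Type := Lp ℝ 2 (volume : Measure ℝ)

noncomputable instance : NormedAddCommGroup L2 := Lp.instNormedAddCommGroup

noncomputable instance : NormedSpace ℝ L2 := Lp.instNormedSpace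

/-- An element of `L²(ℝ)` as an element of Mathlib's space `Lp`. -/
def toLp (a : L2) : Lp ℝ 2 (volume : Measure ℝ) := a

/-- The function given by an element of `L²(ℝ)`. -/
noncomputable def fn (a : L2) : ℝ → ℝ := (toLp a : ℝ → ℝ)

/-- `b` is the weak derivative of `a`. -/
def WeakDeriv (a b : L2) : Prop :=
  ∀ φ : ℝ → ℝ, ContDiff ℝ ∞ φ → HasCompactSupport φ →
    ∫ x, fn a x * deriv φ x = -∫ x, fn b x * φ x

/-- `a` is even. -/
def EvenL2 (a : L2) : Prop := ∀ᵐ x : ℝ, fn a (-x) = fn a x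

/-- The triple is `(w₀, w₀', w₁)` with `w₀ ∈ H¹(ℝ)`, `w₁ ∈ L²(ℝ)` even. -/
def IsPair (p : L2 × L2 × L2) : Prop := EvenL2 p.1 ∧ WeakDeriv p.1 p.2.1 ∧ EvenL2 p.2.2

theorem IsPair.zero : IsPair 0 :=
  ⟨Pool.Agent.Q82.CW.EvenL2.zero, Pool.Agent.Q82.CW.WeakDeriv.zero, Pool.Agent.Q82.CW.EvenL2.zero⟩

theorem IsPair.add {p q : L2 × L2 × L2} (h : IsPair p) (h' : IsPair q) : IsPair (p + q) :=
  ⟨Pool.Agent.Q82.CW.EvenL2.add h.1 h'.1, Pool.Agent.Q82.CW.WeakDeriv.add h.2.1 h'.2.1,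
    Pool.Agent.Q82.CW.EvenL2.add h.2.2 h'.2.2⟩

theorem IsPair.smul (c : ℝ) {p : L2 × L2 × L2} (h : IsPair p) : IsPair (c • p) :=
  ⟨Pool.Agent.Q82.CW.EvenL2.smul c h.1, Pool.Agent.Q82.CW.WeakDeriv.smul c h.2.1,
    Pool.Agent.Q82.CW.EvenL2.smul c h.2.2⟩

/-- The space of the pairs `(w₀, w₁) ∈ H¹(ℝ) × L²(ℝ)` with `w₀`, `w₁` even. A pair is stored as the
triple `(w₀, w₀', w₁)` with its norm in `L² × L² × L²`, which is equivalent to the norm of
`H¹ × L²`. -/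
def X : Submodule ℝ (L2 × L2 × L2) where
  carrier := IsPair
  zero_mem' := IsPair.zero
  add_mem' := IsPair.add
  smul_mem' := IsPair.smul

/-- The same space as a type. -/
def E : Type := X

noncomputable instance : NormedAddCommGroup E := Submodule.normedAddCommGroup X

noncomputable instance : NormedSpace ℝ E := Submodule.normedSpace X

/-- The function `w₀`. -/
noncomputable def w0 (p : E) : ℝ → ℝ := fn (Subtype.val p).1

/-- The function `w₀'`. -/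
noncomputable def dw0 (p : E) : ℝ → ℝ := fn (Subtype.val p).2.1

/-- The function `w₁`. -/
noncomputable def w1 (p : E) : ℝ → ℝ := fn (Subtype.val p).2.2

/-- The element `p` of `E` is the pair `(f, k)`. -/
def Repr (p : E) (f k : ℝ → ℝ) : Prop := w0 p =ᵐ[volume] f ∧ w1 p =ᵐ[volume] k

/-- The stationary profile `g`. -/
noncomputable def g (x : ℝ) : ℝ := if |x| ≤ Real.pi then 4 * Real.cos (x / 2) ^ 2 else 0

/-- `γ τ = (w(τ), w_τ(τ))` is a weak solution with the data `d`: it is continuous on `[0, ∞)` with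
values in `E`, `γ 0 = d`, and in the sense of distributions on `ℝ × (0, ∞)` the second component is
the `τ`-derivative of the first one and the equation holds. The test functions depend on
`(x, τ)`. -/
def WeakSol (d : E) (γ : ℝ → E) : Prop :=
  ContinuousOn γ (Ici 0) ∧ γ 0 = d ∧
  ∀ ψ : ℝ × ℝ → ℝ, ContDiff ℝ ∞ ψ → HasCompactSupport ψ → tsupport ψ ⊆ {q | 0 < q.2} →
    (∫ τ, ∫ x, w0 (γ τ) x * deriv (fun t => ψ (x, t)) τ = -∫ τ, ∫ x, w1 (γ τ) x * ψ (x, τ)) ∧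
    (-(∫ τ, ∫ x, w1 (γ τ) x * deriv (fun t => ψ (x, t)) τ) + 5 * ∫ τ, ∫ x, w1 (γ τ) x * ψ (x, τ) =
      -(∫ τ, ∫ x, w0 (γ τ) x * dw0 (γ τ) x * deriv (fun y => ψ (y, τ)) x) +
        ∫ τ, ∫ x, (2 * w0 (γ τ) x ^ 2 - 6 * w0 (γ τ) x) * ψ (x, τ))

/-- Near the point `p` the set `M` is a hypersurface of class `C¹`, contained in `U` and transversal
to `v` at `p`. -/
def Hyper (U M : Set E) (p v : E) : Prop :=
  M ⊆ U ∧ p ∈ M ∧ ∃ (V : Set E) (Φ : E → ℝ), IsOpen V ∧ p ∈ V ∧ ContDiffOn ℝ 1 Φ V ∧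
    (∀ x ∈ V, x ∈ M ↔ Φ x = 0) ∧ fderiv ℝ Φ p v ≠ 0

/-- The assertion of Q1 for the point `p = (g, 0)` and the direction `v = (g, g)`: there are a
neighbourhood `U` of `p` and a hypersurface `M` in `U` through `p`, transversal to `v`, such that
for every `ε > 0` there is `δ > 0` for which all data in `M` at distance less than `δ` from `p` have a weak
solution that stays at distance less than `ε` from `p` and converges to `p`. -/
def LinearizedStability (p v : E) : Prop :=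
  ∃ U M : Set E, U ∈ 𝓝 p ∧ Hyper U M p v ∧ ∀ ε : ℝ, 0 < ε → ∃ δ : ℝ, 0 < δ ∧ ∀ d ∈ M,
    ‖d - p‖ < δ → ∃ γ : ℝ → E, WeakSol d γ ∧ (∀ τ : ℝ, 0 ≤ τ → ‖γ τ - p‖ < ε) ∧
      Tendsto (fun τ => ‖γ τ - p‖) atTop (𝓝 0)

/-- In every such hypersurface there are data arbitrarily close to `p` without any weak solution. -/
def IllPosed (p v : E) : Prop :=
  ∀ U M : Set E, U ∈ 𝓝 p → Hyper U M p v → ∀ ρ : ℝ, 0 < ρ →
    ∃ d ∈ M, ‖d - p‖ < ρ ∧ ∀ γ : ℝ → E, ¬ WeakSol d γ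

end Pool.Agent.Q82.CWS
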